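import Pool.Agent.H80R2.HG.Lin

/-!
# QW/MAT, part 1: compressions of operators on a Hilbert space to matrices (helper2)
-/

set_option autoImplicit false

namespace Pool.Agent.N2.QW

open Matrix Finset Pool.Agent.H21R2 Pool.Agent.H80R2.HG
open scoped ComplexOrder Matrix.Norms.Frobenius InnerProductSpace

/-- the matrix data -/
structure MD {Γ : Type} [Group Γ] (A : Finset Γ) (M ε : ℝ) {n N : ℕ}
    (B : Γ → Matrix (Fin n) (Fin n) ℂ) (Z : Matrix (Fin n) (Fin N) ℂ) : Prop where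
  one : B 1 = 1
  op : ∀ g ∈ A, ∀ X : Matrix (Fin n) (Fin n) ℂ, ‖B g * X‖ ≤ M * ‖X‖
  nz : ‖Z‖ = 1
  inv : ∀ g ∈ A, ∀ V : unitaryGroup (Fin n) ℂ,
    ‖trace (Zᴴ * (V.1 * Z)) - trace ((B g * Z)ᴴ * (V.1 * (B g * Z)))‖ ≤ ε
  iso : ∀ g ∈ A, ‖(1 - (B g)ᴴ * B g) * Z‖ ^ 2 ≤ ε
  mul : ∀ g ∈ A, ∀ h ∈ A, ‖(B (g * h) - B g * B h) * Z‖ ^ 2 ≤ ε
  tr : ∀ g ∈ A, g ≠ 1 → ‖trace (Zᴴ * (B g * Z))‖ ≤ ε

section hilb

variable {K : Type} [NormedAddCommGroup K] [InnerProductSpace ℂ K] {n N : ℕ} (e : Fin n → K)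

/-- coordinates -/
noncomputable def co (v : K) : Fin n → ℂ := fun x => ⟪e x, v⟫_ℂ

/-- in the span -/
def Sp (v : K) : Prop := v = ∑ x, co e v x • e x

/-- compression of an operator -/
noncomputable def mt (T : K →L[ℂ] K) : Matrix (Fin n) (Fin n) ℂ :=
  Matrix.of fun x y => ⟪e x, T (e y)⟫_ℂ

/-- the matrix with given columns -/
noncomputable def ZZ (v : Fin N → K) : Matrix (Fin n) (Fin N) ℂ :=
  Matrix.of fun x k => co e (v k) x

theorem mt_mulVec (T : K →L[ℂ] K) {v : K} (hv : Sp e v) : mt e T *ᵥ co e v = co e (T v) := by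
  funext x
  have h1 : T v = ∑ y, co e v y • T (e y) := by
    conv_lhs => rw [hv]
    rw [map_sum]
    exact sum_congr rfl fun y _ => map_smul _ _ _
  show ∑ y, mt e T x y * co e v y = ⟪e x, T v⟫_ℂ
  rw [h1, inner_sum]
  refine sum_congr rfl fun y _ => ?_
  rw [inner_smul_right, mul_comm]
  rfl

theorem mt_star [CompleteSpace K] (T : K →L[ℂ] K) : mt e (star T) = (mt e T)ᴴ := by
  ext x y
  rw [conjTranspose_apply]
  show ⟪e x, (star T) (e y)⟫_ℂ = star ⟪e y, T (e x)⟫_ℂ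
  rw [ContinuousLinearMap.star_eq_adjoint, ContinuousLinearMap.adjoint_inner_right]
  exact (inner_conj_symm _ _).symm

theorem mt_one (he : Orthonormal ℂ e) : mt e (1 : K →L[ℂ] K) = 1 := by
  ext x y
  show ⟪e x, e y⟫_ℂ = (1 : Matrix (Fin n) (Fin n) ℂ) x y
  rw [orthonormal_iff_ite.1 he, Matrix.one_apply]

theorem mt_mul_ZZ (T : K →L[ℂ] K) (v : Fin N → K) (hv : ∀ k, Sp e (v k)) :
    mt e T * ZZ e v = ZZ e (fun k => T (v k)) := by
  ext x k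
  exact congrFun (mt_mulVec e T (hv k)) x

theorem ZZ_sub (v u : Fin N → K) : ZZ e v - ZZ e u = ZZ e (fun k => v k - u k) := by
  ext x k
  show ⟪e x, v k⟫_ℂ - ⟪e x, u k⟫_ℂ = ⟪e x, v k - u k⟫_ℂ
  rw [inner_sub_right]

theorem fro2_ZZ_le (he : Orthonormal ℂ e) (v : Fin N → K) : fro2 (ZZ e v) ≤ ∑ k, ‖v k‖ ^ 2 := by
  rw [fro2, sum_comm]
  exact sum_le_sum fun k _ => Orthonormal.sum_inner_products_le (v k) he

theorem inner_eq (u : K) {v : K} (hv : Sp e v) :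
    ⟪u, v⟫_ℂ = ∑ x, star (co e u x) * co e v x := by
  conv_lhs => rw [hv]
  rw [inner_sum]
  refine sum_congr rfl fun x _ => ?_
  rw [inner_smul_right, mul_comm]
  congr 1
  exact (inner_conj_symm _ _).symm

theorem norm_eq_co {v : K} (hv : Sp e v) : ∑ x, ‖co e v x‖ ^ 2 = ‖v‖ ^ 2 := by
  have h1 := inner_eq e v hv
  rw [inner_self_eq_norm_sq_to_K] at h1
  have h2 : ((∑ x, ‖co e v x‖ ^ 2 : ℝ) : ℂ) = ((‖v‖ ^ 2 : ℝ) : ℂ) := by
    push_cast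
    rw [show ((‖v‖ : ℂ) ^ 2) = _ from h1]
    refine sum_congr rfl fun x _ => ?_
    rw [Complex.star_def, Complex.conj_mul']
  exact_mod_cast h2

theorem fro2_ZZ (v : Fin N → K) (hv : ∀ k, Sp e (v k)) : fro2 (ZZ e v) = ∑ k, ‖v k‖ ^ 2 := by
  rw [fro2, sum_comm]
  exact sum_congr rfl fun k _ => norm_eq_co e (hv k)

/-- the operator of a matrix -/
noncomputable def Vop (V : Matrix (Fin n) (Fin n) ℂ) : K →L[ℂ] K :=
  ∑ x, ∑ y, V x y • (innerSL ℂ (e y)).smulRight (e x)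

theorem Vop_apply (V : Matrix (Fin n) (Fin n) ℂ) (v : K) :
    Vop e V v = ∑ x, (V *ᵥ co e v) x • e x := by
  unfold Vop
  rw [_root_.sum_apply]
  refine sum_congr rfl fun x _ => ?_
  rw [_root_.sum_apply]
  show ∑ y, (V x y • (innerSL ℂ (e y)).smulRight (e x)) v = (∑ y, V x y * co e v y) • e x
  rw [sum_smul]
  refine sum_congr rfl fun y _ => ?_
  rw [_root_.smul_apply, ContinuousLinearMap.smulRight_apply, smul_smul]
  rfl

theorem inner_Vop (V : Matrix (Fin n) (Fin n) ℂ) (u v : K) :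
    ⟪u, Vop e V v⟫_ℂ = ∑ x, star (co e u x) * (V *ᵥ co e v) x := by
  rw [Vop_apply, inner_sum]
  refine sum_congr rfl fun x _ => ?_
  rw [inner_smul_right, mul_comm]
  congr 1
  exact (inner_conj_symm _ _).symm

theorem norm_sum_sq (he : Orthonormal ℂ e) (a : Fin n → ℂ) :
    ‖∑ x, a x • e x‖ ^ 2 = ∑ x, ‖a x‖ ^ 2 := by
  have h1 := he.inner_sum a a univ
  rw [inner_self_eq_norm_sq_to_K] at h1
  have h2 : ((‖∑ x, a x • e x‖ ^ 2 : ℝ) : ℂ) = ((∑ x, ‖a x‖ ^ 2 : ℝ) : ℂ) := by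
    push_cast
    rw [show ((‖∑ x, a x • e x‖ : ℂ) ^ 2) = _ from h1]
    refine sum_congr rfl fun x _ => ?_
    rw [Complex.conj_mul']
  exact_mod_cast h2

theorem unitary_mulVec (V : unitaryGroup (Fin n) ℂ) (c : Fin n → ℂ) :
    ∑ x, ‖(V.1 *ᵥ c) x‖ ^ 2 = ∑ x, ‖c x‖ ^ 2 := by
  have h1 := fro2_unitary_mul V (Matrix.of fun (x : Fin n) (_ : Fin 1) => c x)
  rw [fro2, fro2] at h1
  simp only [Fin.sum_univ_one] at h1
  exact h1

theorem norm_Vop_le (he : Orthonormal ℂ e) (V : unitaryGroup (Fin n) ℂ) : ‖Vop e V.1‖ ≤ 1 := by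
  refine ContinuousLinearMap.opNorm_le_bound _ zero_le_one fun v => ?_
  rw [one_mul]
  have h1 : ‖Vop e V.1 v‖ ^ 2 ≤ ‖v‖ ^ 2 := by
    rw [Vop_apply, norm_sum_sq e he, unitary_mulVec]
    exact Orthonormal.sum_inner_products_le v he
  exact le_of_sq_le_sq h1 (norm_nonneg _)

theorem trace_ZZ (V : Matrix (Fin n) (Fin n) ℂ) (u v : Fin N → K) :
    trace ((ZZ e u)ᴴ * (V * ZZ e v)) = ∑ k, ⟪u k, Vop e V (v k)⟫_ℂ := by
  rw [trace]
  refine sum_congr rfl fun k _ => ?_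
  rw [diag_apply, mul_apply, inner_Vop]
  rfl

theorem trace_ZZ' (u v : Fin N → K) (hv : ∀ k, Sp e (v k)) :
    trace ((ZZ e u)ᴴ * ZZ e v) = ∑ k, ⟪u k, v k⟫_ℂ := by
  rw [trace]
  refine sum_congr rfl fun k _ => ?_
  rw [diag_apply, mul_apply, inner_eq e _ (hv k)]
  rfl

theorem norm_mt_mul (he : Orthonormal ℂ e) (T : K →L[ℂ] K) (M : ℝ) (hT : ‖T‖ ≤ M)
    (X : Matrix (Fin n) (Fin N) ℂ) : ‖mt e T * X‖ ≤ M * ‖X‖ := by
  set v : Fin N → K := fun k => ∑ x, X x k • e x with hv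
  have hco : ∀ k, co e (v k) = fun x => X x k := by
    intro k
    funext x
    exact he.inner_right_fintype (fun x => X x k) x
  have hX : X = ZZ e v := by
    ext x k
    show X x k = co e (v k) x
    rw [hco]
  have hsp : ∀ k, Sp e (v k) := by
    intro k
    show v k = ∑ x, co e (v k) x • e x
    rw [hco]
  have hM : 0 ≤ M := (norm_nonneg _).trans hT
  rw [norm_le_iff _ _ (mul_nonneg hM (norm_nonneg _)), mul_pow, norm_sq_eq, hX,
    mt_mul_ZZ e T v hsp, fro2_ZZ e v hsp]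
  refine (fro2_ZZ_le e he _).trans ?_
  rw [mul_sum]
  refine sum_le_sum fun k _ => ?_
  rw [← mul_pow]
  exact pow_le_pow_left₀ (norm_nonneg _)
    ((T.le_opNorm _).trans (mul_le_mul_of_nonneg_right hT (norm_nonneg _))) 2

end hilb

open Classical in
theorem toMD {Γ : Type} [Group Γ] (A : Finset Γ) (M ε : ℝ) (h1A : (1 : Γ) ∈ A)
    (K : Type) [NormedAddCommGroup K] [InnerProductSpace ℂ K] [CompleteSpace K]
    (b : Γ → (K →L[ℂ] K)) (N : ℕ) (ζ : Fin N → K) (hb1 : b 1 = 1) (hbM : ∀ g ∈ A, ‖b g‖ ≤ M)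
    (hz : ∑ k, ‖ζ k‖ ^ 2 = 1)
    (hinv : ∀ g ∈ A, ∀ V : K →L[ℂ] K, ‖V‖ ≤ 1 →
      ‖∑ k, (⟪ζ k, V (ζ k)⟫_ℂ - ⟪b g (ζ k), V (b g (ζ k))⟫_ℂ)‖ ≤ ε)
    (hiso : ∀ g ∈ A, ∑ k, ‖(1 - star (b g) * b g) (ζ k)‖ ^ 2 ≤ ε)
    (hmul : ∀ g ∈ A, ∀ h ∈ A, ∑ k, ‖(b (g * h) - b g * b h) (ζ k)‖ ^ 2 ≤ ε)
    (htr : ∀ g ∈ A, g ≠ 1 → ‖∑ k, ⟪ζ k, b g (ζ k)⟫_ℂ‖ ≤ ε) :
    ∃ (n N : ℕ) (B : Γ → Matrix (Fin n) (Fin n) ℂ) (Z : Matrix (Fin n) (Fin N) ℂ),
      MD A M ε B Z := by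
  set s : Set K := ⋃ g ∈ A, Set.range (fun k => b g (ζ k)) with hs
  have hfin : s.Finite := A.finite_toSet.biUnion fun g _ => Set.finite_range _
  set W : Submodule ℂ K := Submodule.span ℂ s with hW
  have : FiniteDimensional ℂ W := FiniteDimensional.span_of_finite ℂ hfin
  set bs := stdOrthonormalBasis ℂ W with hbs
  set e : Fin (Module.finrank ℂ W) → K := fun x => (bs x : K) with he'
  have he : Orthonormal ℂ e := bs.orthonormal.comp_linearIsometry W.subtypeₗᵢ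
  have hsp : ∀ v ∈ W, Sp e v := by
    intro v hv
    have h1 := congrArg (fun x : W => (x : K)) (bs.sum_repr' ⟨v, hv⟩)
    simp only [Submodule.coe_sum, Submodule.coe_smul] at h1
    exact h1.symm
  have hbW : ∀ g ∈ A, ∀ k, b g (ζ k) ∈ W := fun g hg k =>
    Submodule.subset_span (Set.mem_biUnion hg ⟨k, rfl⟩)
  have hζW : ∀ k, ζ k ∈ W := by
    intro k
    have := hbW 1 h1A k
    rwa [hb1] at this
  have hB : ∀ g, mt e (b g) * ZZ e ζ = ZZ e (fun k => b g (ζ k)) := fun g =>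
    mt_mul_ZZ e (b g) ζ fun k => hsp _ (hζW k)
  refine ⟨_, N, fun g => mt e (b g), ZZ e ζ, ?_, ?_, ?_, ?_, ?_, ?_, ?_⟩
  · show mt e (b 1) = 1
    rw [hb1, mt_one e he]
  · intro g hg X
    exact norm_mt_mul e he _ M (hbM g hg) X
  · rw [norm_eq, fro2_ZZ e ζ (fun k => hsp _ (hζW k)), hz, Real.sqrt_one]
  · intro g hg V
    rw [hB, trace_ZZ, trace_ZZ, ← sum_sub_distrib]
    exact hinv g hg _ (norm_Vop_le e he V)
  · intro g hg
    have h1 : (1 - (mt e (b g))ᴴ * mt e (b g)) * ZZ e ζ =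
        ZZ e (fun k => (1 - star (b g) * b g) (ζ k)) := by
      rw [Matrix.sub_mul, Matrix.one_mul, Matrix.mul_assoc, hB, ← mt_star,
        mt_mul_ZZ e _ _ (fun k => hsp _ (hbW g hg k)), ZZ_sub]
      rfl
    rw [norm_sq_eq, h1]
    exact (fro2_ZZ_le e he _).trans (hiso g hg)
  · intro g hg h hh
    have h1 : (mt e (b (g * h)) - mt e (b g) * mt e (b h)) * ZZ e ζ =
        ZZ e (fun k => (b (g * h) - b g * b h) (ζ k)) := by
      rw [Matrix.sub_mul, Matrix.mul_assoc, hB, hB,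
        mt_mul_ZZ e _ _ (fun k => hsp _ (hbW h hh k)), ZZ_sub]
      rfl
    rw [norm_sq_eq, h1]
    exact (fro2_ZZ_le e he _).trans (hmul g hg h hh)
  · intro g hg hg1
    rw [hB, trace_ZZ' e _ _ (fun k => hsp _ (hbW g hg k))]
    exact htr g hg hg1

end Pool.Agent.N2.QW
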