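import Pool.Agent.N859.QW.Stm
import Pool.Agent.H21R2.HCrit
import Pool.Agent.H80R2.HG.Crit
import Pool.Agent.H80R2.HG.PS
import Pool.Agent.N2.QW.MatA

/-!
# QW/MAT: from densities to matrices (helper2)
-/

set_option autoImplicit false

namespace Pool.Agent.N2.QW

open Matrix Finset Pool.Agent.H21R2 Pool.Agent.H80R2.HG
open Pool.Agent.N859.QW (S_MAT)
open scoped ComplexOrder Matrix.Norms.Frobenius InnerProductSpace

theorem exists_sqrt {κ : Type} [Fintype κ] [DecidableEq κ] (ρ : Matrix κ κ ℂ)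
    (hρ : ρ.PosSemidef) : ∃ T : Matrix κ κ ℂ, T.PosSemidef ∧ T * T = ρ := by
  refine ⟨PSAux.conjD hρ.1.eigenvectorUnitary (fun i => Real.sqrt (hρ.1.eigenvalues i)),
    PSAux.conjD_psd _ _ (fun i => Real.sqrt_nonneg _), ?_⟩
  rw [PSAux.conjD_mul]
  conv_rhs => rw [PSAux.herm_eq ρ hρ.1]
  congr 1
  funext i
  exact Real.mul_self_sqrt (hρ.eigenvalues_nonneg i)

section core

variable {n N : ℕ} {Z : Matrix (Fin n) (Fin N) ℂ} {T : Matrix (Fin n) (Fin n) ℂ}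

theorem norm_mul_T (hT : Tᴴ = T) (hTT : T * T = Z * Zᴴ) (Y : Matrix (Fin n) (Fin n) ℂ) :
    ‖Y * T‖ = ‖Y * Z‖ := by
  rw [norm_eq, norm_eq]
  congr 1
  have h : (fro2 (Y * T) : ℂ) = fro2 (Y * Z) := by
    rw [← fro2_conjTranspose (Y * T), ← fro2_conjTranspose (Y * Z), fro2_eq_trace, fro2_eq_trace,
      conjTranspose_conjTranspose, conjTranspose_conjTranspose, conjTranspose_mul,
      conjTranspose_mul, hT]
    congr 1
    rw [Matrix.mul_assoc, ← Matrix.mul_assoc T, hTT]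
    simp only [Matrix.mul_assoc]
  exact_mod_cast h

theorem norm_T (hT : Tᴴ = T) (hTT : T * T = Z * Zᴴ) (hZ : ‖Z‖ = 1) : ‖T‖ = 1 := by
  have := norm_mul_T hT hTT 1
  rwa [Matrix.one_mul, Matrix.one_mul, hZ] at this

theorem trace_TT (hTT : T * T = Z * Zᴴ) (V : Matrix (Fin n) (Fin n) ℂ) :
    trace (T * T * V) = trace (Zᴴ * (V * Z)) := by
  rw [hTT, Matrix.mul_assoc, Matrix.trace_mul_comm, Matrix.mul_assoc]

/-- one operator -/
theorem exists_u (hTp : T.PosSemidef) (hTT : T * T = Z * Zᴴ) (hZ : ‖Z‖ = 1)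
    (B : Matrix (Fin n) (Fin n) ℂ) (η : ℝ) (hη : 0 ≤ η)
    (h1 : ‖(1 - Bᴴ * B) * Z‖ ≤ η ^ 2)
    (h2 : ∀ V : unitaryGroup (Fin n) ℂ,
      ‖trace (Zᴴ * (V.1 * Z)) - trace ((B * Z)ᴴ * (V.1 * (B * Z)))‖ ≤ η ^ 2) :
    ∃ u : unitaryGroup (Fin n) ℂ, ‖u.1 * T - B * T‖ ≤ η ∧ ‖T * u.1 - B * T‖ ≤ η := by
  have hT : Tᴴ = T := hTp.1
  obtain ⟨u, ⟨V1, e1⟩, ⟨V2, e2⟩⟩ := polar_ps (B * T) T hTp
  refine ⟨u, ?_, ?_⟩
  · have h3 : trace ((T * T - (B * T)ᴴ * (B * T)) * V1.1) =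
        trace (((1 - Bᴴ * B) * T) * (V1.1 * T)) := by
      rw [conjTranspose_mul, hT]
      have e3 : (T * T - T * Bᴴ * (B * T)) * V1.1 = T * (((1 - Bᴴ * B) * T) * V1.1) := by
        noncomm_ring
      rw [e3, Matrix.trace_mul_comm, Matrix.mul_assoc]
    have h4 : ‖trace ((T * T - (B * T)ᴴ * (B * T)) * V1.1)‖ ≤ η ^ 2 := by
      rw [h3]
      refine (norm_trace_mul_le _ _).trans ?_
      rw [norm_unitary_mul, norm_T hT hTT hZ, mul_one, norm_mul_T hT hTT]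
      exact h1
    have h5 : ‖u.1 * T - B * T‖ ^ 2 ≤ η ^ 2 := by
      rw [norm_sq_eq]
      exact e1.trans ((Complex.re_le_norm _).trans h4)
    exact le_of_sq_le_sq h5 hη
  · have h3 : trace ((T * T - (B * T) * (B * T)ᴴ) * V2.1) =
        trace (Zᴴ * (V2.1 * Z)) - trace ((B * Z)ᴴ * (V2.1 * (B * Z))) := by
      have e3 : (B * T) * (B * T)ᴴ = (B * Z) * (B * Z)ᴴ := by
        rw [conjTranspose_mul, conjTranspose_mul, hT]
        calc B * T * (T * Bᴴ) = B * (T * T) * Bᴴ := by simp only [Matrix.mul_assoc]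
          _ = B * Z * (Zᴴ * Bᴴ) := by rw [hTT]; simp only [Matrix.mul_assoc]
      rw [Matrix.sub_mul, trace_sub, trace_TT hTT, e3]
      congr 1
      rw [Matrix.mul_assoc, Matrix.trace_mul_comm, Matrix.mul_assoc]
    have h4 : ‖trace ((T * T - (B * T) * (B * T)ᴴ) * V2.1)‖ ≤ η ^ 2 := by
      rw [h3]
      exact h2 V2
    have h5 : ‖T * u.1 - B * T‖ ^ 2 ≤ η ^ 2 := by
      rw [norm_sq_eq]
      exact e2.trans ((Complex.re_le_norm _).trans h4)
    exact le_of_sq_le_sq h5 hη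

/-- the displacement -/
theorem disp (hTp : T.PosSemidef) (hTT : T * T = Z * Zᴴ) (hZ : ‖Z‖ = 1)
    (B : Matrix (Fin n) (Fin n) ℂ) (η : ℝ) (hη1 : η ≤ 1 / 4)
    (u : unitaryGroup (Fin n) ℂ) (hu : ‖u.1 * T - B * T‖ ≤ η)
    (hB : ‖trace (Zᴴ * (B * Z))‖ ≤ η) : 1 ≤ ‖(u.1 - 1) * T‖ := by
  have hT : Tᴴ = T := hTp.1
  have hT1 := norm_T hT hTT hZ
  have h1 : ‖trace (T * (u.1 * T))‖ ≤ 2 * η := by
    have e1 : trace (T * (u.1 * T)) = trace (T * (u.1 * T - B * T)) + trace (Zᴴ * (B * Z)) := by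
      rw [← trace_TT hTT, Matrix.mul_sub, trace_sub]
      have : trace (T * (B * T)) = trace (T * T * B) := by
        rw [← Matrix.mul_assoc, Matrix.trace_mul_comm, Matrix.mul_assoc]
      rw [this]
      ring
    rw [e1]
    refine (norm_add_le _ _).trans ?_
    have := norm_trace_mul_le T (u.1 * T - B * T)
    rw [hT1, one_mul] at this
    linarith
  have h2 : (fro2 ((u.1 - 1) * T) : ℂ) =
      fro2 (u.1 * T) + fro2 T - (trace (T * (u.1 * T)) + star (trace (T * (u.1 * T)))) := by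
    rw [fro2_eq_trace, fro2_eq_trace, fro2_eq_trace, ← trace_conjTranspose, ← trace_add,
      ← trace_add, ← trace_sub]
    congr 1
    have e2 : (T * (u.1 * T))ᴴ = (u.1 * T)ᴴ * T := by
      rw [conjTranspose_mul, hT]
    rw [e2, Matrix.sub_mul, Matrix.one_mul, conjTranspose_sub, hT]
    noncomm_ring
  have h3 : fro2 (u.1 * T) = 1 := by
    rw [fro2_unitary_mul, ← norm_sq_eq, hT1, one_pow]
  have h4 : fro2 T = 1 := by
    rw [← norm_sq_eq, hT1, one_pow]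
  have h5 : fro2 ((u.1 - 1) * T) = 2 - 2 * (trace (T * (u.1 * T))).re := by
    have := congrArg Complex.re h2
    rw [h3, h4] at this
    simp only [Complex.ofReal_re, Complex.sub_re, Complex.add_re, Complex.ofReal_one,
      Complex.one_re, Complex.star_def, Complex.conj_re] at this
    linarith
  have h6 : (trace (T * (u.1 * T))).re ≤ 2 * η := (Complex.re_le_norm _).trans h1
  have h7 : (1 : ℝ) ^ 2 ≤ ‖(u.1 - 1) * T‖ ^ 2 := by
    rw [norm_sq_eq, h5]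
    linarith
  exact le_of_sq_le_sq h7 (norm_nonneg _)

end core

theorem t_mat : S_MAT := by
  classical
  intro Γ _ H
  apply hyperlinear_of_criterion
  apply crit_reindex
  intro A h1A g0 hg0 hg01 ε0 hε0
  obtain ⟨M, hM⟩ := H A
  have hMp : 0 < 6 + |M| := by positivity
  set η : ℝ := min (1 / 4) (ε0 / (6 + |M|)) with hη
  have hη0 : 0 < η := lt_min (by norm_num) (by positivity)
  have hη1 : η ≤ 1 / 4 := min_le_left _ _
  have hη2 : (6 + |M|) * η ≤ ε0 := by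
    have : η ≤ ε0 / (6 + |M|) := min_le_right _ _
    rw [le_div_iff₀ hMp] at this
    linarith
  have hp2 : η ^ 2 ≤ η := by nlinarith
  have hp4 : η ^ 4 ≤ η ^ 2 := by
    have : η ^ 4 = η ^ 2 * η ^ 2 := by ring
    rw [this]
    nlinarith [sq_nonneg η]
  obtain ⟨K, _, _, _, b, N, ζ, c1, c2, c3, c4, c5, c6, c7⟩ := hM (η ^ 4) (by positivity)
  obtain ⟨n, N, B, Z, hD⟩ := toMD A M (η ^ 4) h1A K b N ζ c1 c2 c3 c4 c5 c6 c7
  have hM0 : 0 ≤ M := by
    have := c2 1 h1A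
    exact (norm_nonneg _).trans this
  rw [abs_of_nonneg hM0] at hη2
  obtain ⟨T, hTp, hTT⟩ := exists_sqrt (Z * Zᴴ) (posSemidef_self_mul_conjTranspose Z)
  have hT : Tᴴ = T := hTp.1
  have hT1 := norm_T hT hTT hD.nz
  have hsq : ∀ {m : ℕ} (X : Matrix (Fin n) (Fin m) ℂ), ‖X‖ ^ 2 ≤ η ^ 4 → ‖X‖ ≤ η ^ 2 := by
    intro m X hX
    refine le_of_sq_le_sq ?_ (by positivity)
    calc ‖X‖ ^ 2 ≤ η ^ 4 := hX
      _ = (η ^ 2) ^ 2 := by ring
  have hu : ∀ g, ∃ u : unitaryGroup (Fin n) ℂ, (g = 1 → u = 1) ∧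
      (g ∈ A → ‖u.1 * T - B g * T‖ ≤ η ∧ ‖T * u.1 - B g * T‖ ≤ η) := by
    intro g
    by_cases hg1 : g = 1
    · refine ⟨1, fun _ => rfl, fun _ => ?_⟩
      subst hg1
      have e1 : ((1 : unitaryGroup (Fin n) ℂ) : Matrix (Fin n) (Fin n) ℂ) = 1 := rfl
      rw [e1, hD.one, Matrix.one_mul, Matrix.mul_one, sub_self, norm_zero]
      exact ⟨hη0.le, hη0.le⟩
    · by_cases hgA : g ∈ A
      · obtain ⟨u, hu⟩ := exists_u hTp hTT hD.nz (B g) η hη0.le (hsq _ (hD.iso g hgA))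
          (fun V => (hD.inv g hgA V).trans hp4)
        exact ⟨u, fun h => absurd h hg1, fun _ => hu⟩
      · exact ⟨1, fun _ => rfl, fun h => absurd h hgA⟩
  choose φ hφ1 hφ using hu
  have hlow : 1 ≤ ‖((φ g0).1 - 1) * T‖ :=
    disp hTp hTT hD.nz (B g0) η hη1 (φ g0) (hφ g0 hg0).1
      ((hD.tr g0 hg0 hg01).trans (hp4.trans hp2))
  have hfin : ∀ x : ℝ, x ≤ (6 + M) * η → x ≤ ε0 * ‖((φ g0).1 - 1) * T‖ := by
    intro x hx
    have : ε0 * 1 ≤ ε0 * ‖((φ g0).1 - 1) * T‖ := mul_le_mul_of_nonneg_left hlow hε0.le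
    linarith
  have hcomm : ∀ a ∈ A, ‖(φ a).1 * T - T * (φ a).1‖ ≤ 2 * η := by
    intro a ha
    have e1 : (φ a).1 * T - T * (φ a).1 = ((φ a).1 * T - B a * T) - (T * (φ a).1 - B a * T) := by
      abel
    rw [e1]
    refine (norm_sub_le _ _).trans ?_
    have := hφ a ha
    linarith [this.1, this.2]
  refine ⟨Fin n, inferInstance, inferInstance, φ, T, hTp.1, hφ1 1 rfl, by linarith, ?_, ?_⟩
  · intro a ha
    apply hfin
    refine (hcomm a ha).trans ?_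
    nlinarith
  · intro a ha c hc hac
    apply hfin
    have e1 : ((φ (a * c)).1 - (φ a).1 * (φ c).1) * T =
        ((φ (a * c)).1 * T - B (a * c) * T) + (B (a * c) - B a * B c) * T -
          B a * (T * (φ c).1 - B c * T) - ((φ a).1 * T - B a * T) * (φ c).1 -
          (φ a).1 * ((φ c).1 * T - T * (φ c).1) := by
      noncomm_ring
    have n1 := (hφ _ hac).1
    have n2 : ‖(B (a * c) - B a * B c) * T‖ ≤ η := by
      rw [norm_mul_T hT hTT]
      exact (hsq _ (hD.mul a ha c hc)).trans hp2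
    have n3 : ‖B a * (T * (φ c).1 - B c * T)‖ ≤ M * η :=
      (hD.op a ha _).trans (mul_le_mul_of_nonneg_left (hφ c hc).2 hM0)
    have n4 : ‖((φ a).1 * T - B a * T) * (φ c).1‖ ≤ η := by
      rw [norm_mul_unitary]
      exact (hφ a ha).1
    have n5 : ‖(φ a).1 * ((φ c).1 * T - T * (φ c).1)‖ ≤ 2 * η := by
      rw [norm_unitary_mul]
      exact hcomm c hc
    rw [e1]
    refine (norm_sub_le _ _).trans ?_
    refine (add_le_add_left (norm_sub_le _ _) _).trans ?_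
    refine (add_le_add_left (add_le_add_left (norm_sub_le _ _) _) _).trans ?_
    refine (add_le_add_left (add_le_add_left (add_le_add_left (norm_add_le _ _) _) _) _).trans ?_
    nlinarith

end Pool.Agent.N2.QW
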